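import Mathlib
import Pool.Agent.H15CY.Main

/-! No polytope of maximal volume inscribed in the unit sphere with `d + 3` vertices is cyclic,
for even `d ≥ 4`. -/

set_option autoImplicit false

namespace Pool.Agent.Results.MP_45a79b_co.NoCyclicMaximum

open MeasureTheory

/-- The family of convex polytopes in `ℝ^d` with at most `n` vertices, all on the unit sphere. -/
def Fam (d n : ℕ) : Set (Set (EuclideanSpace ℝ (Fin d))) :=
  {P | ∃ S : Finset (EuclideanSpace ℝ (Fin d)), S.card ≤ n ∧ (∀ x ∈ S, ‖x‖ = 1) ∧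
    P = convexHull ℝ (S : Set (EuclideanSpace ℝ (Fin d)))}

/-- The largest volume of a member of the family. -/
noncomputable def vmax (d n : ℕ) : ENNReal := ⨆ P ∈ Fam d n, volume P

/-- The face lattice of a polytope: its exposed faces, among them the empty face and the polytope,
ordered by inclusion. -/
abbrev FaceLattice {d : ℕ} (P : Set (EuclideanSpace ℝ (Fin d))) :=
  {F : Set (EuclideanSpace ℝ (Fin d)) // IsExposed ℝ P F}

/-- The moment curve `s ↦ (s, s^2, …, s^d)`. -/
noncomputable def moment (d : ℕ) (s : ℝ) : EuclideanSpace ℝ (Fin d) :=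
  WithLp.toLp 2 (fun r => s ^ ((r : ℕ) + 1))

/-- A polytope is cyclic if its face lattice is isomorphic to that of the convex hull of finitely
many points of the moment curve. -/
def Cyclic {d : ℕ} (P : Set (EuclideanSpace ℝ (Fin d))) : Prop :=
  ∃ T : Finset ℝ, Nonempty (FaceLattice P ≃o FaceLattice (convexHull ℝ (moment d '' (T : Set ℝ))))

/-- For every even `d ≥ 4`, no polytope of maximal volume among those inscribed in the unit sphere
of `ℝ^d` with at most `d + 3` vertices is cyclic. -/
theorem result : ∀ d : ℕ, Even d → 4 ≤ d → ∀ P ∈ Fam d (d + 3),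
    volume P = vmax d (d + 3) → ¬ Cyclic P := by
  intro d hd hd4 P hP hmax hcyc
  obtain ⟨S, hcard, hS, rfl⟩ := hP
  obtain ⟨T, ⟨e⟩⟩ := hcyc
  refine Pool.Agent.H15CY.main d hd hd4 S hcard hS ?_ T e
  intro S' hS'1 hS'2
  rw [hmax]
  exact le_iSup₂_of_le (convexHull ℝ (S' : Set (EuclideanSpace ℝ (Fin d)))) ⟨S', hS'1, hS'2, rfl⟩
    (le_refl _)

end Pool.Agent.Results.MP_45a79b_co.NoCyclicMaximum
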